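import Pool.Agent.Lib_helper48.OCN.YcBs
import Pool.Agent.Lib_helper92.OCN.YcJR

/-!
# MP_aeb124_co: the number game (block N), steps (T3)
-/

set_option autoImplicit false

namespace Pool.Agent.OCN.YC

variable {P : Par} {v : Vd} {o u μ : ℕ} {β : Multiset ℕ}

theorem T3_min (a b : ℕ) : (0 : ℤ) ≤ min (a : ℤ) b :=
  le_min (Int.natCast_nonneg _) (Int.natCast_nonneg _)

/-- left attack -/
theorem st_L (h : Sn P (o + 1) u μ β v) : Sn P o u μ β v := by
  obtain ⟨h1, h2, h3, h4, h5, h6, h7, h8, h9, h10, h11, h12, h13, h14, h15⟩ := h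
  exact ⟨h1, h2, h3, h4, h5, h6, h7, h8, h9, h10, by omega, by omega, h13, h14, h15⟩

theorem st_L_pot {ra ra' I : ℕ} (hI : o + ra' ≤ I + ra + v.E) :
    Psi P (o + 1) ra v ≤ Psi P o ra' v + 8 * I + 4 ∧
      Vee P (o + 1) ra v ≤ Vee P o ra' v + 8 * I + 4 ∧
      Pee P (o + 1) ra v ≤ Pee P o ra' v + 8 * I + 4 := by
  have hI' : o + ra' ≤ I + v.E + ra := by omega
  refine ⟨Psi_L hI', Vee_L hI', ?_⟩
  have h1 := Pee_L (P := P) hI'
  have h2 := T3_min v.c P.f
  linarith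

/-- attack of a left element -/
theorem st_h (h : Sn P (o + 1) u μ β v) : Sn P o u μ (0 ::ₘ β) { v with n := v.n + 1 } where
  hf := h.hf
  hnl := h.hnl
  hm := h.hm
  hμ := h.hμ
  hw := h.hw
  hz := h.hz
  hz0 := h.hz0
  hA := fun hh => by
    obtain ⟨h1, h2, h3, h4, h5⟩ := h.hA hh
    exact ⟨h1, h2, h3, Nat.le_succ_of_le h4, h5⟩
  hH := h.hH
  hn := by
    have h1 := h.hn
    show 3 * P.f + v.c + v.m + 4 * P.K + 100 ≤ 2 * (v.n + 1)
    omega
  hN := by
    have h1 := h.hN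
    show v.n + 1 + v.w + v.E + o ≤ 4 * P.Q
    omega
  ho := by
    have h1 := h.ho
    omega
  hE := h.hE
  hW := by
    have h1 := h.hW
    rw [Multiset.card_cons]
    omega
  hR := rp_h h.hR h.hH

theorem st_h_pot (h : Sn P (o + 1) u μ β v) {ra ra' I : ℕ} (hI : o + 1 + ra' ≤ I + ra) :
    Psi P (o + 1) ra v ≤ Psi P o ra' { v with n := v.n + 1 } + 8 * I ∧
      (v.md = true → Vee P (o + 1) ra v ≤ Vee P o ra' { v with n := v.n + 1 } + 8 * I + 8 * P.K) ∧
      Pee P (o + 1) ra v ≤ Pee P o ra' { v with n := v.n + 1 } + 8 * I := by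
  have h0 : (0 : ℤ) ≤ v.E := Int.natCast_nonneg _
  refine ⟨?_, fun hmd => ?_, ?_⟩
  · have h1 := Psi_h (P := P) (v := v) (v' := { v with n := v.n + 1 }) rfl rfl rfl rfl rfl hI
    linarith
  · have h1 := Vee_h (P := P) (v := v) (v' := { v with n := v.n + 1 }) rfl rfl rfl rfl rfl hI rfl
      rfl rfl (h.hA hmd).2.1 (by have := h.hm; omega)
    have h2 : (v.w : ℤ) ≤ P.K := by exact_mod_cast h.hw
    linarith
  · have h1 := Pee_h (P := P) (v := v) (v' := { v with n := v.n + 1 }) rfl rfl rfl rfl rfl hI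
    have h2 := T3_min v.c P.f
    linarith

/-- attack of a start of a short window; `k` is the number of starts of the window after it -/
theorem st_ws (h : Sn P (o + 1) u μ β v) (hM : μ + 1 ≤ v.E) (hw : v.w + 1 ≤ P.K) :
    Sn P o (u + 1) μ β { v with E := v.E - 1, w := v.w + 1 } where
  hf := h.hf
  hnl := h.hnl
  hm := by
    have h1 := h.hm
    show v.m + μ = v.E - 1 + (v.w + 1)
    omega
  hμ := by
    show μ ≤ v.E - 1
    omega
  hw := hw
  hz := h.hz
  hz0 := h.hz0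
  hA := h.hA
  hH := h.hH
  hn := h.hn
  hN := by
    have h1 := h.hN
    show v.n + (v.w + 1) + (v.E - 1) + o ≤ 4 * P.Q
    omega
  ho := by
    have h1 := h.ho
    omega
  hE := by
    have h1 := h.hE
    show P.W ≤ u + 1 + (v.E - 1)
    omega
  hW := by
    have h1 := h.hW
    omega
  hR := h.hR

theorem T3_TP {v' : Vd} (hw : v'.w = v.w + 1) (hm : v'.m = v.m) (hc : v'.c = v.c) :
    TP P o v' + 80 * P.K = TP P (o + 1) v + 8 * ((v.m : ℤ) + min (v.c : ℤ) P.f) := by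
  unfold TP
  rw [hw, hm, hc]
  push_cast
  ring

theorem T3_al {v' : Vd} (hw : v'.w = v.w + 1) (hm : v'.m = v.m) (hc : v'.c = v.c) :
    al P.f v' = 8 * min (max 0 ((v.c : ℤ) - v.m)) (P.f : ℤ) + 64 ∧ al P.f v ≤ al P.f v' := by
  have h1 : (0 : ℤ) ≤ min (max 0 ((v.c : ℤ) - v.m)) (P.f : ℤ) :=
    le_min (le_max_left _ _) (Int.natCast_nonneg _)
  have h2 : al P.f v' = 8 * min (max 0 ((v.c : ℤ) - v.m)) (P.f : ℤ) + 64 := by
    unfold al
    rw [if_neg (by omega), hm, hc]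
  refine ⟨h2, ?_⟩
  rw [h2]
  unfold al
  split_ifs
  · linarith
  · exact le_rfl

theorem st_ws_pot (h : Sn P (o + 1) u μ β v) (hM : μ + 1 ≤ v.E) {a r ν : ℕ} (hw : v.w < r) :
    Psi P (o + 1) (r * (a + 1)) v ≤
        Psi P o ((r + 1) * a) { v with E := v.E - 1, w := v.w + 1 } + 8 * (a + ν : ℕ) ∧
      Vee P (o + 1) (r * (a + 1)) v ≤
        Vee P o ((r + 1) * a) { v with E := v.E - 1, w := v.w + 1 } + 8 * (a + ν : ℕ) ∧
      Pee P (o + 1) (r * (a + 1)) v + TP P o { v with E := v.E - 1, w := v.w + 1 } + 40 * P.K ≤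
        Pee P o ((r + 1) * a) { v with E := v.E - 1, w := v.w + 1 } + TP P (o + 1) v +
          8 * (a + ν : ℕ) ∧
      al P.f v ≤ al P.f { v with E := v.E - 1, w := v.w + 1 } := by
  have hI : (r + 1) * a ≤ (a + ν) + r * (a + 1) + 0 := by
    have e1 : (r + 1) * a = r * a + a := by ring
    have e2 : r * (a + 1) = r * a + r := by ring
    omega
  have hE : v.E - 1 + 1 = v.E := by omega
  have hE1 : (1 : ℤ) ≤ v.E := by exact_mod_cast (show 1 ≤ v.E by omega)
  refine ⟨?_, ?_, ?_, (T3_al (P := P) (v := v) (v' := { v with E := v.E - 1, w := v.w + 1 })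
    rfl rfl rfl).2⟩
  · have h1 := Psi_ws (P := P) (o := o) (v := v) (v' := { v with E := v.E - 1, w := v.w + 1 })
      hE rfl rfl rfl rfl hI
    push_cast at h1 ⊢
    linarith
  · have h1 := Vee_ws (P := P) (o := o) (v := v) (v' := { v with E := v.E - 1, w := v.w + 1 })
      hE rfl rfl rfl rfl rfl rfl rfl hI
    push_cast at h1 ⊢
    linarith
  · have h1 := Pee_ws (P := P) (o := o) (v := v) (v' := { v with E := v.E - 1, w := v.w + 1 })
      hE rfl rfl rfl rfl hI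
    have h2 := T3_TP (P := P) (o := o) (v := v) (v' := { v with E := v.E - 1, w := v.w + 1 })
      rfl rfl rfl
    have h3 : (v.m : ℤ) ≤ v.E + P.K := by
      have h4 := h.hm
      have h5 := h.hw
      exact_mod_cast (show v.m ≤ v.E + P.K by omega)
    have h4 : (11 : ℤ) ≤ P.K := by
      have := P.hK
      exact_mod_cast (show 11 ≤ P.K by omega)
    push_cast at h1 ⊢
    linarith

/-- attack of the start of a long window -/
theorem st_wl_pot (h : Sn P (o + 1) u 0 β v) (hM : 1 ≤ v.E) (hw : v.w = 0)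
    (hy : v.c ≤ P.f + v.m + 2) {a cb : ℕ} (hao : a ≤ o) (hcb : cb ≤ v.c) (hcb2 : cb ≤ a + 1) :
    Psi P (o + 1) (a + 1) v ≤ Psi P o (2 * a) { v with E := v.E - 1, w := v.w + 1 } +
        8 * (a + 1 - cb : ℕ) + al P.f { v with E := v.E - 1, w := v.w + 1 } ∧
      Vee P (o + 1) (a + 1) v ≤ Vee P o (2 * a) { v with E := v.E - 1, w := v.w + 1 } +
        8 * (a + 1 - cb : ℕ) + al P.f { v with E := v.E - 1, w := v.w + 1 } ∧
      Pee P (o + 1) (a + 1) v + TP P o { v with E := v.E - 1, w := v.w + 1 } + 40 * P.K ≤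
        Pee P o (2 * a) { v with E := v.E - 1, w := v.w + 1 } + TP P (o + 1) v + 16 * (o : ℤ) +
          8 * (a + 1 - cb : ℕ) := by
  have hI : 2 * a ≤ (a + 1 - cb) + (a + 1) + (cb - 2) := by omega
  have hE : v.E - 1 + 1 = v.E := by omega
  have hmE : (v.m : ℤ) = v.E := by
    have h1 := h.hm
    exact_mod_cast (show v.m = v.E by omega)
  have hm0 : (0 : ℤ) ≤ v.m := Int.natCast_nonneg _
  have hE1 : (1 : ℤ) ≤ v.E := by exact_mod_cast hM
  have hk : ((cb - 2 : ℕ) : ℤ) ≤ v.c := by exact_mod_cast (show cb - 2 ≤ v.c by omega)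
  have hk2 : ((cb - 2 : ℕ) : ℤ) ≤ o := by exact_mod_cast (show cb - 2 ≤ o by omega)
  have hy' : (v.c : ℤ) ≤ P.f + v.m + 2 := by exact_mod_cast hy
  have ha := (T3_al (P := P) (v := v) (v' := { v with E := v.E - 1, w := v.w + 1 }) rfl rfl rfl).1
  have hal : 8 * (v.c : ℤ) + 48 ≤ 8 * v.E + al P.f { v with E := v.E - 1, w := v.w + 1 } := by
    rw [ha, ← hmE]
    have h3 : (v.c : ℤ) - v.m - 2 ≤ min (max 0 ((v.c : ℤ) - v.m)) (P.f : ℤ) := by
      refine le_min ?_ (by linarith)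
      have := le_max_right (0 : ℤ) ((v.c : ℤ) - v.m)
      linarith
    linarith
  refine ⟨?_, ?_, ?_⟩
  · have h1 := Psi_ws (P := P) (o := o) (v := v) (v' := { v with E := v.E - 1, w := v.w + 1 })
      hE rfl rfl rfl rfl hI
    linarith
  · have h1 := Vee_ws (P := P) (o := o) (v := v) (v' := { v with E := v.E - 1, w := v.w + 1 })
      hE rfl rfl rfl rfl rfl rfl rfl hI
    linarith
  · have h1 := Pee_ws (P := P) (o := o) (v := v) (v' := { v with E := v.E - 1, w := v.w + 1 })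
      hE rfl rfl rfl rfl hI
    have h2 := T3_TP (P := P) (o := o) (v := v) (v' := { v with E := v.E - 1, w := v.w + 1 })
      rfl rfl rfl
    have h4 : (11 : ℤ) ≤ P.K := by
      have := P.hK
      exact_mod_cast (show 11 ≤ P.K by omega)
    have ho : (0 : ℤ) ≤ o := Int.natCast_nonneg _
    linarith

/-- the last main start is opened -/
theorem st_opn (h : Sn P o u (μ + 1) β v) (hM : μ + 2 ≤ v.E) :
    Sn P o (u + 1) μ β { v with E := v.E - 1 } ∧
      Psi P o o { v with E := v.E - 1 } = Psi P o 0 v ∧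
      Vee P o o { v with E := v.E - 1 } = Vee P o 0 v ∧
      Pee P o o { v with E := v.E - 1 } = Pee P o 0 v := by
  have hE : v.E - 1 + 1 = v.E := by omega
  refine ⟨?_, Psi_opn hE rfl rfl rfl rfl, Vee_opn hE rfl rfl rfl rfl rfl rfl rfl,
    Pee_opn hE rfl rfl rfl rfl⟩
  obtain ⟨h1, h2, h3, h4, h5, h6, h7, h8, h9, h10, h11, h12, h13, h14, h15⟩ := h
  refine ⟨h1, h2, ?_, ?_, h5, h6, h7, h8, h9, h10, ?_, h12, ?_, ?_, h15⟩
  · show v.m + μ = v.E - 1 + v.w
    omega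
  · show μ ≤ v.E - 1
    omega
  · show v.n + v.w + (v.E - 1) + o ≤ 4 * P.Q
    omega
  · show P.W ≤ u + 1 + (v.E - 1)
    omega
  · omega

/-- attack on a long start of the main part -/
theorem st_5f (h : Sn P o u (μ + 1) β v) :
    Sn P o (u + 1) μ β { v with E := v.E - 1 } ∧
      ∀ ra : ℕ, Psi P o ra { v with E := v.E - 1 } = Psi P o ra v + 8 * o ∧
        Vee P o ra { v with E := v.E - 1 } = Vee P o ra v + 8 * o ∧
        Pee P o ra { v with E := v.E - 1 } = Pee P o ra v + 8 * o := by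
  have hE : v.E - 1 + 1 = v.E := by
    have := h.hμ
    omega
  refine ⟨?_, fun ra => ⟨Psi_E hE rfl rfl rfl rfl, Vee_E hE rfl rfl rfl rfl rfl rfl rfl,
    Pee_E hE rfl rfl rfl rfl⟩⟩
  obtain ⟨h1, h2, h3, h4, h5, h6, h7, h8, h9, h10, h11, h12, h13, h14, h15⟩ := h
  refine ⟨h1, h2, ?_, ?_, h5, h6, h7, h8, h9, h10, ?_, h12, ?_, ?_, h15⟩
  · show v.m + μ = v.E - 1 + v.w
    omega
  · show μ ≤ v.E - 1
    omega
  · show v.n + v.w + (v.E - 1) + o ≤ 4 * P.Q
    omega
  · show P.W ≤ u + 1 + (v.E - 1)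
    omega
  · omega

/-- attack on a long base element -/
theorem st_5b {j : ℕ} (h : Sn P o u μ (j ::ₘ β) v) : Sn P o (u + 1) μ β v := by
  obtain ⟨h1, h2, h3, h4, h5, h6, h7, h8, h9, h10, h11, h12, h13, h14, h15⟩ := h
  rw [Multiset.card_cons] at h14
  exact ⟨h1, h2, h3, h4, h5, h6, h7, h8, h9, h10, h11, h12, by omega, by omega, rp_del h15⟩

/-- mode A becomes mode H -/
theorem st_AH (h : Sn P o u μ β v) (hmd : v.md = true) (hp : v.p = 0) (hdm : v.d + v.m = P.f) :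
    Sn P o u μ β { v with md := false } where
  hf := h.hf
  hnl := h.hnl
  hm := h.hm
  hμ := h.hμ
  hw := h.hw
  hz := h.hz
  hz0 := h.hz0
  hA := fun hh => absurd hh (by simp)
  hH := fun _ => by
    show v.m ≤ P.f
    omega
  hn := h.hn
  hN := h.hN
  ho := h.ho
  hE := h.hE
  hW := h.hW
  hR := rp_AH h.hR hmd hp hdm

end Pool.Agent.OCN.YC
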